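import Mathlib
import Pool.Agent.Lib.helper6.Dist

set_option autoImplicit false

namespace Pool.Agent.Results.MP_bde484_co.Eight

open Finset SimpleGraph

/-- `X` is a `d`-distance dominating set and a `p`-packing of `G`. -/
def Good {V : Type} (G : SimpleGraph V) (d p : ℕ) (X : Finset V) : Prop :=
  (∀ u, u ∉ X → ∃ x ∈ X, G.dist u x ≤ d) ∧ ∀ u ∈ X, ∀ v ∈ X, u ≠ v → p + 1 ≤ G.dist u v

/-- the parent of the vertex `v ≠ 0` -/
def par (v : Fin 31) : ℕ := 27260221232420171817190316010412091000080605070303040101000000 / 100 ^ v.val % 100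

def T : SimpleGraph (Fin 31) := fromRel fun a b => a ≠ 0 ∧ par a = b.val

instance : DecidableRel T.Adj := fun _ _ => inferInstanceAs (Decidable (_ ∧ _))

def N : ℕ := 671598482767367886877766655645607519828476736788687776665564577066875756564547737666555441321560487371656256775766655544534516408717365625677576665554453499888017972386789777686557647568877710686127567866657544653645425317606254514566465554443342388777986067615276868757664356452451376260545145664655544433423776662157501645675554643354253466555324641053456444353224314237766687515650416575764655324534334226515143403455354443332231266555764245413054646535442134237746687575656450771766655544332887779866676554708687176623564588777766865475678066175426536456635576464545341660655544433221887777668654756786605712465364577666655754364567155064315425347766687555654436175760655124534776666557543645675514601354253466555544643253456442351024314236655554464325345624415320431423665557644454332526465154401342355444653334322143535424331023125544443353214234533324211320312661557646454534366265554443302144333542423231234424333222112015524465353434232551544433322110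

def D (u v : Fin 31) : ℕ := N / 10 ^ (u.val * 31 + v.val) % 10

theorem cert (u v : Fin 31) : T.Reachable u v ∧ T.dist u v = D u v :=
  Pool.Agent.Lib.helper6.dist_eq_of_cert T D (by decide +kernel) (by decide +kernel)
    (by decide +kernel) u v

theorem key (A : Fin 31 → Prop) (L : Fin 8 → Fin 31)
    (h : ∀ i j x, A x → D (L i) x ≤ 3 → D (L j) x ≤ 3 → i = j) (X : Finset (Fin 31))
    (hA : ∀ x ∈ X, A x) (hd : ∀ u, ∃ x ∈ X, D u x ≤ 3) : 8 ≤ X.card := by
  choose f hf hf' using hd
  have := card_le_card_of_injOn (s := (univ : Finset (Fin 8))) (t := X) (fun i => f (L i))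
    (fun i _ => hf _) (fun i _ j _ e => h i j _ (hA _ (hf _)) (hf' _) (by
      have e' : f (L i) = f (L j) := e
      rw [e']; exact hf' _))
  simpa using this

theorem low (X : Finset (Fin 31)) (h : Good T 3 3 X) : 8 ≤ X.card := by
  have hd : ∀ u, ∃ x ∈ X, D u x ≤ 3 := fun u => by
    by_cases hu : u ∈ X
    · exact ⟨u, hu, by rw [← (cert u u).2]; simp⟩
    · obtain ⟨x, hx, hx'⟩ := h.1 u hu
      exact ⟨x, hx, by rwa [← (cert u x).2]⟩
  have hp : ∀ c ∈ X, ∀ x ∈ X, x = c ∨ 4 ≤ D c x := fun c hc x hx => by
    by_cases e : x = c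
    · exact Or.inl e
    · exact Or.inr (by rw [← (cert c x).2]; exact h.2 c hc x hx (Ne.symm e))
  by_cases h3 : (3 : Fin 31) ∈ X
  · exact key _ ![11, 14, 22, 29, 30, 25, 15, 28] (by decide +kernel) X (hp 3 h3) hd
  by_cases h4 : (4 : Fin 31) ∈ X
  · exact key _ ![11, 14, 13, 29, 30, 25, 15, 28] (by decide +kernel) X (hp 4 h4) hd
  by_cases h17 : (17 : Fin 31) ∈ X
  · exact key _ ![11, 14, 22, 29, 13, 25, 15, 28] (by decide +kernel) X (hp 17 h17) hd
  exact key (fun x => x ≠ 3 ∧ x ≠ 4 ∧ x ≠ 17) ![11, 14, 22, 29, 30, 25, 15, 13] (by decide +kernel) X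
    (fun x hx => ⟨fun e => h3 (e ▸ hx), fun e => h4 (e ▸ hx), fun e => h17 (e ▸ hx)⟩) hd

theorem result : ∃ (p d n k : ℕ) (T : SimpleGraph (Fin n)), 3 ≤ p ∧ p ≤ d ∧ T.IsTree ∧
    IsLeast {m | ∃ X : Finset (Fin n), Good T d p X ∧ X.card = m} k ∧
    ((n : ℝ) - 2 * √n + d + 1) / d < k := by
  refine ⟨3, 3, 31, 8, T, le_rfl, le_rfl, isTree_iff_connected_and_card.mpr ⟨⟨fun u v => (cert u v).1⟩, ?_⟩,
    ⟨⟨{3, 15, 25, 28, 9, 18, 26, 27}, ?_, by decide +kernel⟩, ?_⟩, ?_⟩
  · rw [Nat.card_eq_fintype_card, Nat.card_eq_fintype_card]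
    decide +kernel
  · simp only [Good, (cert _ _).2]
    decide +kernel
  · rintro m ⟨X, h, rfl⟩
    exact low X h
  · have : (11 / 2 : ℝ) < √31 := Real.lt_sqrt_of_sq_lt (by norm_num)
    push_cast
    linarith

end Pool.Agent.Results.MP_bde484_co.Eight
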